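import Pool.Agent.K4H59.TL.Spec

open Set

namespace Pool.Agent.K4H59.TL

open Pool.Agent.K4H72.Til (IsPolygon ShareEdge IsTiling Tile Derivable Adj HasLocEig)

namespace G2

/-- the cone where `f₀ ≤ 0` and `h` is maximal -/
def Cn (H : Finset (ℂ →L[ℝ] ℝ)) (f₀ h : ℂ →L[ℝ] ℝ) : Set ℂ :=
  {y : ℂ | f₀ y ≤ 0 ∧ ∀ h' ∈ H, h' y ≤ h y}

lemma closed_Cn (H : Finset (ℂ →L[ℝ] ℝ)) (f₀ h : ℂ →L[ℝ] ℝ) : IsClosed (Cn H f₀ h) := by
  have h1 : IsClosed {y : ℂ | f₀ y ≤ 0} := isClosed_le f₀.continuous continuous_const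
  have h2 : IsClosed {y : ℂ | ∀ h' ∈ H, h' y ≤ h y} := by
    have : {y : ℂ | ∀ h' ∈ H, h' y ≤ h y} = ⋂ h' ∈ H, {y : ℂ | h' y ≤ h y} := by
      ext y; simp
    rw [this]
    exact isClosed_biInter fun h' _ => isClosed_le h'.continuous h.continuous
  exact h1.inter h2

lemma exists_neg {f₀ : ℂ →L[ℝ] ℝ} (hf : f₀ ≠ 0) : ∃ v : ℂ, f₀ v < 0 := by
  by_contra hcon
  push Not at hcon
  apply hf
  ext v
  have h1 := hcon v
  have h2 := hcon (-v)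
  rw [map_neg] at h2
  change f₀ v = 0
  linarith

/-- the nondegenerate cones cover the half-plane -/
lemma exists_act {H : Finset (ℂ →L[ℝ] ℝ)} {f₀ : ℂ →L[ℝ] ℝ} (hH : H.Nonempty) (hf : f₀ ≠ 0) {y : ℂ}
    (h0 : f₀ y ≤ 0) : ∃ h, Act H f₀ h ∧ y ∈ Cn H f₀ h := by
  classical
  by_contra hcon
  push Not at hcon
  -- the union of the nondegenerate cones is closed
  have hcl : IsClosed (⋃ h ∈ H.filter (fun h => Act H f₀ h), Cn H f₀ h) :=
    Set.Finite.isClosed_biUnion (H.filter (fun h => Act H f₀ h)).finite_toSet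
      (fun h _ => closed_Cn H f₀ h)
  have hy : y ∈ (⋃ h ∈ H.filter (fun h => Act H f₀ h), Cn H f₀ h)ᶜ := by
    intro hmem
    simp only [Set.mem_iUnion] at hmem
    obtain ⟨h, hh, hyh⟩ := hmem
    exact hcon h (Finset.mem_filter.1 hh).2 hyh
  obtain ⟨r, hr, hball⟩ := Metric.isOpen_iff.1 hcl.isOpen_compl y hy
  -- the open set
  obtain ⟨v, hv⟩ := exists_neg hf
  have hWo : IsOpen (Metric.ball y r ∩ {z : ℂ | f₀ z < 0}) :=
    Metric.isOpen_ball.inter (isOpen_lt f₀.continuous continuous_const)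
  have hWn : (Metric.ball y r ∩ {z : ℂ | f₀ z < 0}).Nonempty := by
    have hv0 : v ≠ 0 := by rintro rfl; simp at hv
    have hvn : 0 < ‖v‖ := norm_pos_iff.2 hv0
    refine ⟨y + ((r / (2 * ‖v‖) : ℝ) : ℝ) • v, ?_, ?_⟩
    · rw [Metric.mem_ball, dist_eq_norm, add_sub_cancel_left, norm_smul, Real.norm_eq_abs,
        abs_of_pos (by positivity)]
      have : r / (2 * ‖v‖) * ‖v‖ = r / 2 := by field_simp
      rw [this]
      linarith
    · change f₀ _ < 0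
      rw [map_add, map_smul, smul_eq_mul]
      have : 0 < r / (2 * ‖v‖) := by positivity
      nlinarith
  -- the degenerate cones are nowhere dense
  have hd : Dense (⋂ h ∈ (H.filter (fun h => ¬ Act H f₀ h) : Set (ℂ →L[ℝ] ℝ)), (Cn H f₀ h)ᶜ) := by
    refine dense_biInter_of_isOpen (fun h _ => (closed_Cn H f₀ h).isOpen_compl)
      (H.filter (fun h => ¬ Act H f₀ h)).finite_toSet.countable (fun h hh => ?_)
    rw [← interior_eq_empty_iff_dense_compl]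
    by_contra hne
    have hh' := Finset.mem_filter.1 (Finset.mem_coe.1 hh)
    exact hh'.2 ⟨hh'.1, Set.nonempty_iff_ne_empty.2 hne⟩
  obtain ⟨z, ⟨hz1, hz2⟩, hz3⟩ := hd.inter_open_nonempty _ hWo hWn
  -- `z` lies in some cone
  obtain ⟨h, hh, hmax⟩ := H.exists_max_image (fun h => h z) hH
  have hzC : z ∈ Cn H f₀ h := ⟨le_of_lt hz2, hmax⟩
  by_cases hA : Act H f₀ h
  · exact hball hz1 (Set.mem_iUnion₂.2 ⟨h, Finset.mem_filter.2 ⟨hh, hA⟩, hzC⟩)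
  · have := Set.mem_iInter₂.1 hz3 h (Finset.mem_coe.2 (Finset.mem_filter.2 ⟨hh, hA⟩))
    exact this hzC

end G2

variable {K : Set ℂ} {O : ℂ} {H : Finset (ℂ →L[ℝ] ℝ)} {f₀ h h' : ℂ →L[ℝ] ℝ} {j j' : ℕ}

theorem pc_cover (hR : Rep K O H) (hf : f₀ ≠ 0) {x : ℂ} (hx : x ∈ K) (h0 : f₀ (x - O) ≤ 0) (hne : x ≠ O) :
    ∃ h j, Act H f₀ h ∧ x ∈ pc H f₀ O h j := by
  obtain ⟨h1, hh1, hpos1⟩ := hR.pos (x - O) (sub_ne_zero.2 hne)
  obtain ⟨h, hA, hy⟩ := G2.exists_act (H := H) ⟨h1, hh1⟩ hf h0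
  have hpos : 0 < h (x - O) := lt_of_lt_of_le hpos1 (hy.2 h1 hh1)
  have hle : h (x - O) ≤ 1 := by
    have hx' := hx
    rw [hR.eq] at hx'
    exact hx' h hA.1
  obtain ⟨j, hj1, hj2⟩ := exists_nat_pow_near_of_lt_one hpos hle (by norm_num : (0 : ℝ) < 1 / 2)
    (by norm_num : (1 / 2 : ℝ) < 1)
  exact ⟨h, j, hA, hy.1, hy.2, hj1.le, hj2⟩

end Pool.Agent.K4H59.TL
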