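import Mathlib
import Pool.Agent.K4H72.Til.Spec

open Set

namespace Pool.Agent.K4H72.Til

namespace ChoiceAux

/-- the lexicographic key -/
noncomputable def key (z : ℂ) : ℝ ×ₗ ℝ := toLex (z.re, z.im)

lemma key_le (z w : ℂ) : key z ≤ key w ↔ z.re < w.re ∨ (z.re = w.re ∧ z.im ≤ w.im) := by
  unfold key
  rw [Prod.Lex.toLex_le_toLex]

lemma key_inj {z w : ℂ} (h1 : key z ≤ key w) (h2 : key w ≤ key z) : z = w := by
  have h := le_antisymm h1 h2
  unfold key at h
  have h' := toLex_inj.1 h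
  exact Complex.ext (congrArg Prod.fst h') (congrArg Prod.snd h')

lemma key_add (z w t : ℂ) : key (z + t) ≤ key (w + t) ↔ key z ≤ key w := by
  rw [key_le, key_le]
  simp only [Complex.add_re, Complex.add_im, add_lt_add_iff_right, add_le_add_iff_right,
    add_left_inj]

open Classical in
/-- the lexicographic minimum -/
noncomputable def c (A : Set ℂ) : ℂ :=
  if h : ∃ x ∈ A, ∀ y ∈ A, key x ≤ key y then h.choose else 0

lemma exists_min {A : Set ℂ} (hA : A.Finite) (hne : A.Nonempty) :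
    ∃ x ∈ A, ∀ y ∈ A, key x ≤ key y := Set.exists_min_image A key hA hne

lemma c_spec {A : Set ℂ} (hA : A.Finite) (hne : A.Nonempty) :
    c A ∈ A ∧ ∀ y ∈ A, key (c A) ≤ key y := by
  have h := exists_min hA hne
  unfold c
  rw [dif_pos h]
  exact h.choose_spec

end ChoiceAux

open ChoiceAux in
theorem choice : ∃ c : Set ℂ → ℂ, (∀ A : Set ℂ, A.Finite → A.Nonempty → c A ∈ A) ∧
    ∀ (A : Set ℂ) (t : ℂ), A.Finite → A.Nonempty → c ((fun z => z + t) '' A) = c A + t := by
  refine ⟨c, fun A hA hne => (c_spec hA hne).1, fun A t hA hne => ?_⟩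
  obtain ⟨h1, h2⟩ := c_spec hA hne
  obtain ⟨h3, h4⟩ := c_spec (hA.image (fun z => z + t)) (hne.image (fun z => z + t))
  apply key_inj
  · exact h4 _ ⟨c A, h1, rfl⟩
  · obtain ⟨y, hy, hyt⟩ := h3
    rw [← hyt]
    exact (key_add _ _ _).2 (h2 y hy)

end Pool.Agent.K4H72.Til
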