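import Pool.Agent.K4H58.XK.Spec

set_option autoImplicit false

open Finset

namespace Pool.Agent.K4H58.XK

/-- a permutation of the type which maps `T` to `T` and `A ⊆ T` to `S ⊆ T` -/
theorem h41_perm_maps {α : Type} [Fintype α] [DecidableEq α] (T A S : Finset α) (hA : A ⊆ T)
    (hS : S ⊆ T) (h : A.card = S.card) :
    ∃ π : Equiv.Perm α, (∀ x, x ∈ T ↔ π x ∈ T) ∧ ∀ x, x ∈ A ↔ π x ∈ S := by
  have hd : (T \ A).card = (T \ S).card := by
    rw [Finset.card_sdiff_of_subset hA, Finset.card_sdiff_of_subset hS, h]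
  let e1 := Finset.equivOfCardEq h
  let e2 := Finset.equivOfCardEq hd
  let f : α → α := fun x => if hx : x ∈ A then (e1 ⟨x, hx⟩ : α) else
    if hx' : x ∈ T \ A then (e2 ⟨x, hx'⟩ : α) else x
  have f1 : ∀ x (hx : x ∈ A), f x = e1 ⟨x, hx⟩ := fun x hx => dif_pos hx
  have f2 : ∀ x (hx : x ∈ T \ A), f x = e2 ⟨x, hx⟩ := fun x hx => by
    have h0 : x ∉ A := (Finset.mem_sdiff.1 hx).2
    simp only [f]
    rw [dif_neg h0, dif_pos hx]
  have f3 : ∀ x, x ∉ T → f x = x := fun x hx => by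
    have h0 : x ∉ A := fun h0 => hx (hA h0)
    have h1 : x ∉ T \ A := fun h1 => hx (Finset.mem_sdiff.1 h1).1
    simp only [f]
    rw [dif_neg h0, dif_neg h1]
  have g1 : ∀ x, x ∈ A → f x ∈ S := fun x hx => by rw [f1 x hx]; exact (e1 ⟨x, hx⟩).2
  have g2 : ∀ x, x ∈ T \ A → f x ∈ T \ S := fun x hx => by rw [f2 x hx]; exact (e2 ⟨x, hx⟩).2
  have hcase : ∀ x, x ∈ A ∨ x ∈ T \ A ∨ x ∉ T := by
    intro x
    by_cases h1 : x ∈ A
    · exact Or.inl h1
    · by_cases h2 : x ∈ T
      · exact Or.inr (Or.inl (Finset.mem_sdiff.2 ⟨h2, h1⟩))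
      · exact Or.inr (Or.inr h2)
  have hinj : Function.Injective f := by
    intro x y hxy
    rcases hcase x with hx | hx | hx <;> rcases hcase y with hy | hy | hy
    · rw [f1 x hx, f1 y hy] at hxy
      have := e1.injective (Subtype.ext hxy)
      exact congrArg Subtype.val this
    · exact absurd (hxy ▸ g1 x hx) (Finset.mem_sdiff.1 (g2 y hy)).2
    · rw [f3 y hy] at hxy
      exact absurd (hS (hxy ▸ g1 x hx)) hy
    · exact absurd (hxy ▸ g1 y hy) (Finset.mem_sdiff.1 (g2 x hx)).2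
    · rw [f2 x hx, f2 y hy] at hxy
      have := e2.injective (Subtype.ext hxy)
      exact congrArg Subtype.val this
    · rw [f3 y hy] at hxy
      exact absurd (Finset.mem_sdiff.1 (hxy ▸ g2 x hx)).1 hy
    · rw [f3 x hx] at hxy
      exact absurd (hS (hxy ▸ g1 y hy)) hx
    · rw [f3 x hx] at hxy
      exact absurd (Finset.mem_sdiff.1 (hxy ▸ g2 y hy)).1 hx
    · rwa [f3 x hx, f3 y hy] at hxy
  refine ⟨Equiv.ofBijective f (Finite.injective_iff_bijective.1 hinj), fun x => ?_, fun x => ?_⟩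
  · rw [Equiv.ofBijective_apply]
    rcases hcase x with hx | hx | hx
    · exact ⟨fun _ => hS (g1 x hx), fun _ => hA hx⟩
    · exact ⟨fun _ => (Finset.mem_sdiff.1 (g2 x hx)).1, fun _ => (Finset.mem_sdiff.1 hx).1⟩
    · rw [f3 x hx]
  · rw [Equiv.ofBijective_apply]
    rcases hcase x with hx | hx | hx
    · exact ⟨fun _ => g1 x hx, fun _ => hx⟩
    · exact ⟨fun h0 => absurd h0 (Finset.mem_sdiff.1 hx).2,
        fun h0 => absurd h0 (Finset.mem_sdiff.1 (g2 x hx)).2⟩
    · rw [f3 x hx]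
      exact ⟨fun h0 => absurd (hA h0) hx, fun h0 => absurd (hS h0) hx⟩

/-- the first `p` elements of `T` -/
theorem h41_first {α : Type} [DecidableEq α] {N : ℕ} (T : Finset α) (σ : α → Fin N)
    (hσ : Function.Injective σ) (p : ℕ) (hp : p ≤ T.card) :
    ∃ S ∈ powersetCard p T, ∀ a ∈ S, ∀ b ∈ T \ S, σ a < σ b := by
  induction p with
  | zero => exact ⟨∅, by simp, by simp⟩
  | succ p ih =>
    obtain ⟨S, hS, h⟩ := ih (by omega)
    rw [mem_powersetCard] at hS
    have hne : (T \ S).Nonempty := by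
      rw [← Finset.card_pos, Finset.card_sdiff_of_subset hS.1]
      omega
    obtain ⟨m, hm, hmin⟩ := Finset.exists_min_image (T \ S) σ hne
    have hm' := Finset.mem_sdiff.1 hm
    refine ⟨insert m S, ?_, ?_⟩
    · rw [mem_powersetCard]
      refine ⟨Finset.insert_subset hm'.1 hS.1, ?_⟩
      rw [Finset.card_insert_of_notMem hm'.2, hS.2]
    · intro a ha b hb
      rw [Finset.mem_sdiff, Finset.mem_insert, not_or] at hb
      have hb' : b ∈ T \ S := Finset.mem_sdiff.2 ⟨hb.1, hb.2.2⟩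
      rcases Finset.mem_insert.1 ha with rfl | ha
      · refine lt_of_le_of_ne (hmin b hb') ?_
        intro h0
        exact hb.2.1 (hσ h0).symm
      · exact h a ha b hb'

/-- PIECE A: the number of orders in which the set `A` is before the set `B`
(idea: `σ ↦` the set of the first `p` elements of `A ∪ B`; by symmetry under permutations of `A ∪ B` all the
`(p+q).choose p` subsets occur equally often; or any other proof) -/
theorem perm_count {N p q : ℕ} (A B : Finset (Fin N)) (hAB : Disjoint A B) (hA : A.card = p)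
    (hB : B.card = q) :
    (univ.filter (fun σ : Equiv.Perm (Fin N) => ∀ a ∈ A, ∀ b ∈ B, σ a < σ b)).card *
      (p + q).choose p = N.factorial := by
  classical
  set T : Finset (Fin N) := A ∪ B with hT
  have hTc : T.card = p + q := by rw [hT, Finset.card_union_of_disjoint hAB, hA, hB]
  have hTA : T \ A = B := by
    rw [hT, Finset.union_sdiff_left, Finset.sdiff_eq_self_of_disjoint hAB.symm]
  have hAT : A ⊆ T := Finset.subset_union_left
  let E : Finset (Fin N) → Finset (Equiv.Perm (Fin N)) := fun S =>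
    univ.filter (fun σ => ∀ a ∈ S, ∀ b ∈ T \ S, σ a < σ b)
  have hE : ∀ S σ, σ ∈ E S ↔ ∀ a ∈ S, ∀ b ∈ T \ S, σ a < σ b := by
    intro S σ
    simp only [E, Finset.mem_filter, Finset.mem_univ, true_and]
  have hcard : ∀ S ∈ powersetCard p T, (E S).card = (E A).card := by
    intro S hS
    rw [mem_powersetCard] at hS
    obtain ⟨π, h1, h2⟩ := h41_perm_maps T A S hAT hS.1 (by rw [hA, hS.2])
    have q1 : ∀ x, π (π⁻¹ x) = x := fun x => π.apply_symm_apply x
    have q2 : ∀ x, π⁻¹ (π x) = x := fun x => π.symm_apply_apply x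
    symm
    refine Finset.card_equiv (Equiv.mulRight π⁻¹) fun σ => ?_
    rw [hE, hE]
    constructor
    · intro h a ha b hb
      rw [Finset.mem_sdiff] at hb
      rw [Equiv.coe_mulRight, Equiv.Perm.mul_apply, Equiv.Perm.mul_apply]
      refine h _ ?_ _ ?_
      · rw [h2, q1]; exact ha
      · rw [Finset.mem_sdiff, h1, h2, q1]
        exact hb
    · intro h a ha b hb
      rw [Finset.mem_sdiff] at hb
      have h3 := h (π a) ((h2 a).1 ha) (π b) (Finset.mem_sdiff.2 ⟨(h1 b).1 hb.1, fun h0 => hb.2 ((h2 b).2 h0)⟩)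
      rw [Equiv.coe_mulRight, Equiv.Perm.mul_apply, Equiv.Perm.mul_apply, q2, q2] at h3
      exact h3
  have hdis : ∀ S ∈ powersetCard p T, ∀ S' ∈ powersetCard p T, S ≠ S' → Disjoint (E S) (E S') := by
    intro S hS S' hS' hne
    rw [mem_powersetCard] at hS hS'
    rw [Finset.disjoint_left]
    intro σ h1 h2
    rw [hE] at h1 h2
    have h3 : ¬ S ⊆ S' := fun h => hne (Finset.eq_of_subset_of_card_le h (by rw [hS.2, hS'.2]))
    have h4 : ¬ S' ⊆ S := fun h => hne (Finset.eq_of_subset_of_card_le h (by rw [hS.2, hS'.2])).symm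
    obtain ⟨a, ha, ha'⟩ := Finset.not_subset.1 h3
    obtain ⟨b, hb, hb'⟩ := Finset.not_subset.1 h4
    have h5 := h1 a ha b (Finset.mem_sdiff.2 ⟨hS'.1 hb, hb'⟩)
    have h6 := h2 b hb a (Finset.mem_sdiff.2 ⟨hS.1 ha, ha'⟩)
    exact absurd h5 (not_lt.2 h6.le)
  have hun : (powersetCard p T).biUnion E = univ := by
    rw [Finset.eq_univ_iff_forall]
    intro σ
    obtain ⟨S, hS, h⟩ := h41_first T σ σ.injective p (by omega)
    exact Finset.mem_biUnion.2 ⟨S, hS, (hE S σ).2 h⟩
  have hsum : ∑ S ∈ powersetCard p T, (E S).card = N.factorial := by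
    rw [← Finset.card_biUnion hdis, hun, Finset.card_univ, Fintype.card_perm, Fintype.card_fin]
  rw [Finset.sum_congr rfl hcard, Finset.sum_const, smul_eq_mul, Finset.card_powersetCard, hTc] at hsum
  have hEA : E A = univ.filter (fun σ : Equiv.Perm (Fin N) => ∀ a ∈ A, ∀ b ∈ B, σ a < σ b) := by
    simp only [E, hTA]
  rw [← hEA, mul_comm]
  exact hsum

end Pool.Agent.K4H58.XK
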